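import Pool.Agent.MWS.StmtsW

/-!
# MWS, row DSV

The general theorem for a visibility relation.
-/

namespace Pool.Agent.MWS.H47

open Pool.Agent.Helper14_MV Pool.Agent.Helper2_MV Pool.Agent.MVO Pool.Agent.MWL

theorem dsv (hTLM : TlmStmt) (hBSX : BsxStmt) (hSWV : SwvStmt) (hEDV : EdvStmt) : DsvStmt :=
  fun V β hV hC => hTLM β (hBSX β hC.toClX) hC.itr (hSWV V β hV hC) (hEDV V β hV hC)

end Pool.Agent.MWS.H47
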